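import Mathlib

set_option autoImplicit false

namespace Pool.Agent.Results.MP_f5651a_an.BlowUp

open Filter Topology

universe u

/-- `F` is a functional of degree `m`: along every line it is, for rational parameters, a
polynomial of degree at most `m` with real coefficients. -/
def FunctionalOfDegree {E : Type u} [NormedAddCommGroup E] [NormedSpace ℝ E] (m : ℕ)
    (F : E → ℝ) : Prop :=
  ∀ x₀ h₀ : E, ∃ a : ℕ → ℝ, ∀ t : ℚ,
    F (x₀ + (t : ℝ) • h₀) = ∑ i ∈ Finset.range (m + 1), a i * (t : ℝ) ^ i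

section Q2

open Polynomial

variable {E : Type u} [NormedAddCommGroup E] [NormedSpace ℝ E]

/-- polynomial version -/
def IsDeg (m : ℕ) (F : E → ℝ) : Prop :=
  ∀ x h : E, ∃ p : ℝ[X], p.natDegree ≤ m ∧ ∀ t : ℚ, F (x + (t : ℝ) • h) = p.eval (t : ℝ)

lemma isDeg_of {m : ℕ} {F : E → ℝ} (hF : FunctionalOfDegree m F) : IsDeg m F := by
  intro x h
  obtain ⟨a, ha⟩ := hF x h
  refine ⟨∑ i ∈ Finset.range (m + 1), C (a i) * X ^ i, ?_, ?_⟩
  · apply natDegree_sum_le_of_forall_le
    intro i hi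
    refine (natDegree_C_mul_X_pow_le _ _).trans ?_
    have := Finset.mem_range.1 hi
    omega
  · intro t
    rw [ha t, eval_finsetSum]
    simp

/-- Lagrange coefficients -/
noncomputable def lam (m j i : ℕ) : ℝ :=
  (Lagrange.basis (Finset.range (m + 1)) (fun k : ℕ => (k : ℝ)) i).coeff j

lemma coeff_formula {m : ℕ} {p : ℝ[X]} (hp : p.natDegree ≤ m) (j : ℕ) :
    p.coeff j = ∑ i ∈ Finset.range (m + 1), lam m j i * p.eval (i : ℝ) := by
  have hinj : Set.InjOn (fun k : ℕ => (k : ℝ)) (Finset.range (m + 1) : Set ℕ) := by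
    intro a _ b _ hab
    exact Nat.cast_injective hab
  have hdeg : p.degree < (Finset.range (m + 1)).card := by
    rw [Finset.card_range]
    refine lt_of_le_of_lt degree_le_natDegree ?_
    exact_mod_cast Nat.lt_succ_of_le hp
  have h := Lagrange.eq_interpolate hinj hdeg
  conv_lhs => rw [h]
  rw [Lagrange.interpolate_apply, finsetSum_coeff]
  apply Finset.sum_congr rfl
  intro i _
  rw [coeff_C_mul, lam]
  ring

/-- top coefficient -/
noncomputable def top (m : ℕ) (F : E → ℝ) (h : E) : ℝ :=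
  ∑ i ∈ Finset.range (m + 1), lam m m i * F ((i : ℝ) • h)

lemma top_eq {m : ℕ} {F : E → ℝ} {h : E} {p : ℝ[X]} (hp : p.natDegree ≤ m)
    (hpe : ∀ t : ℚ, F ((0 : E) + (t : ℝ) • h) = p.eval (t : ℝ)) : top m F h = p.coeff m := by
  rw [coeff_formula hp, top]
  apply Finset.sum_congr rfl
  intro i _
  have := hpe (i : ℚ)
  rw [zero_add] at this
  push_cast at this
  rw [this]

lemma top_isDeg {m : ℕ} {F : E → ℝ} (hF : IsDeg m F) : IsDeg m (top m F) := by
  intro x h
  choose p hp1 hp2 using fun i : ℕ => hF ((i : ℝ) • x) ((i : ℝ) • h)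
  refine ⟨∑ i ∈ Finset.range (m + 1), C (lam m m i) * p i, ?_, ?_⟩
  · apply natDegree_sum_le_of_forall_le
    intro i _
    exact (natDegree_C_mul_le _ _).trans (hp1 i)
  · intro t
    rw [eval_finsetSum, top]
    apply Finset.sum_congr rfl
    intro i _
    rw [eval_mul, eval_C, ← hp2 i t, smul_add, smul_comm]

lemma top_hom {m : ℕ} {F : E → ℝ} (hF : IsDeg m F) (r : ℚ) (h : E) :
    top m F ((r : ℝ) • h) = (r : ℝ) ^ m * top m F h := by
  obtain ⟨p, hp1, hp2⟩ := hF 0 h
  rw [top_eq hp1 hp2]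
  have h1 : (p.comp (C (r : ℝ) * X)).natDegree ≤ m := by
    refine natDegree_comp_le.trans ?_
    calc p.natDegree * (C (r : ℝ) * X).natDegree ≤ m * 1 :=
          Nat.mul_le_mul hp1 ((natDegree_C_mul_le _ _).trans natDegree_X_le)
      _ = m := mul_one m
  have h2 : ∀ t : ℚ, F ((0 : E) + (t : ℝ) • ((r : ℝ) • h)) = (p.comp (C (r : ℝ) * X)).eval (t : ℝ) := by
    intro t
    rw [eval_comp, eval_mul, eval_C, eval_X, smul_smul]
    have := hp2 (r * t)
    push_cast at this
    rw [← this]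
    congr 2
    rw [mul_comm]
  rw [top_eq h1 h2, comp_C_mul_X_coeff, mul_comm]

lemma eval_range {m : ℕ} {p : ℝ[X]} (hp : p.natDegree ≤ m) (t : ℝ) :
    p.eval t = ∑ j ∈ Finset.range (m + 1), p.coeff j * t ^ j :=
  eval_eq_sum_range' (Nat.lt_succ_of_le hp) t

lemma sum_zero_pow (m : ℕ) (f : ℕ → ℝ) :
    ∑ j ∈ Finset.range (m + 1), f j * (0 : ℝ) ^ (m - j) = f m := by
  rw [Finset.sum_range_succ]
  have : ∑ j ∈ Finset.range m, f j * (0 : ℝ) ^ (m - j) = 0 := by
    apply Finset.sum_eq_zero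
    intro j hj
    have := Finset.mem_range.1 hj
    rw [zero_pow (by omega), mul_zero]
  rw [this]
  simp

/-- The top coefficient does not depend on the base point. -/
lemma top_indep {m : ℕ} {F : E → ℝ} (hF : IsDeg m F) {x h : E} {P : ℝ[X]}
    (hP : P.natDegree ≤ m) (hPe : ∀ t : ℚ, F (x + (t : ℝ) • h) = P.eval (t : ℝ)) :
    P.coeff m = top m F h := by
  choose q hq1 hq2 using fun i : ℕ => hF ((i : ℝ) • h) ((i : ℝ) • x)
  -- F (t (h + r x)) = ∑_j t^j ∑_i lam j i * q_i(r)
  have key : ∀ r t : ℚ, F ((t : ℝ) • (h + (r : ℝ) • x)) =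
      ∑ j ∈ Finset.range (m + 1),
        (∑ i ∈ Finset.range (m + 1), lam m j i * (q i).eval (r : ℝ)) * (t : ℝ) ^ j := by
    intro r t
    obtain ⟨p, hp1, hp2⟩ := hF 0 (h + (r : ℝ) • x)
    have := hp2 t
    rw [zero_add] at this
    rw [this, eval_range hp1]
    apply Finset.sum_congr rfl
    intro j _
    rw [coeff_formula hp1]
    congr 1
    apply Finset.sum_congr rfl
    intro i _
    congr 1
    rw [← hq2 i r]
    have h3 := hp2 (i : ℚ)
    push_cast at h3
    rw [← h3, zero_add, smul_add, smul_comm]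
  -- two continuous functions of u
  let f : ℝ → ℝ := fun u => ∑ j ∈ Finset.range (m + 1), P.coeff j * u ^ (m - j)
  let g : ℝ → ℝ := fun u => ∑ j ∈ Finset.range (m + 1),
    (∑ i ∈ Finset.range (m + 1), lam m j i * (q i).eval u) * u ^ (m - j)
  have hf : Continuous f := by
    apply continuous_finsetSum
    intro j _
    fun_prop
  have hg : Continuous g := by
    apply continuous_finsetSum
    intro j _
    apply Continuous.mul _ (by fun_prop)
    apply continuous_finsetSum
    intro i _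
    exact continuous_const.mul (q i).continuous
  have hfg : ∀ n : ℕ, f (1 / ((n : ℝ) + 1)) = g (1 / ((n : ℝ) + 1)) := by
    intro n
    have hn : ((n : ℝ) + 1) ≠ 0 := by positivity
    have e1 : F (x + ((n : ℝ) + 1) • h) = ∑ j ∈ Finset.range (m + 1), P.coeff j * ((n : ℝ) + 1) ^ j := by
      have := hPe ((n : ℚ) + 1)
      push_cast at this
      rw [this, eval_range hP]
    have e2 := key (1 / ((n : ℚ) + 1)) ((n : ℚ) + 1)
    push_cast at e2
    have e3 : ((n : ℝ) + 1) • (h + ((1 : ℝ) / ((n : ℝ) + 1)) • x) = x + ((n : ℝ) + 1) • h := by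
      rw [smul_add, smul_smul, mul_one_div_cancel hn, one_smul, add_comm]
    rw [e3, e1] at e2
    have e4 : ∀ (c : ℕ → ℝ), ∑ j ∈ Finset.range (m + 1), c j * (1 / ((n : ℝ) + 1)) ^ (m - j) =
        (1 / ((n : ℝ) + 1)) ^ m * ∑ j ∈ Finset.range (m + 1), c j * ((n : ℝ) + 1) ^ j := by
      intro c
      rw [Finset.mul_sum]
      apply Finset.sum_congr rfl
      intro j hj
      have hj' : j ≤ m := by have := Finset.mem_range.1 hj; omega
      have : (1 / ((n : ℝ) + 1)) ^ m = (1 / ((n : ℝ) + 1)) ^ (m - j) * (1 / ((n : ℝ) + 1)) ^ j := by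
        rw [← pow_add]; congr 1; omega
      rw [this]
      have h5 : (1 / ((n : ℝ) + 1)) ^ j * ((n : ℝ) + 1) ^ j = 1 := by
        rw [← mul_pow, one_div_mul_cancel hn, one_pow]
      linear_combination (-(c j) * (1 / ((n : ℝ) + 1)) ^ (m - j)) * h5
    simp only [f, g]
    rw [e4, e4, e2]
  have hlim : Tendsto (fun n : ℕ => 1 / ((n : ℝ) + 1)) atTop (𝓝 0) :=
    tendsto_one_div_add_atTop_nhds_zero_nat
  have h1 : Tendsto (fun n : ℕ => f (1 / ((n : ℝ) + 1))) atTop (𝓝 (f 0)) :=
    (hf.tendsto 0).comp hlim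
  have h2 : Tendsto (fun n : ℕ => f (1 / ((n : ℝ) + 1))) atTop (𝓝 (g 0)) := by
    have := (hg.tendsto 0).comp hlim
    refine this.congr ?_
    intro n
    exact (hfg n).symm
  have h3 := tendsto_nhds_unique h1 h2
  simp only [f, g] at h3
  rw [sum_zero_pow, sum_zero_pow m (fun j => ∑ i ∈ Finset.range (m + 1), lam m j i * (q i).eval 0)] at h3
  rw [h3, top]
  apply Finset.sum_congr rfl
  intro i _
  congr 1
  have := hq2 i 0
  simp at this
  exact this.symm

lemma sub_top {m : ℕ} {F : E → ℝ} (hF : IsDeg (m + 1) F) :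
    IsDeg m (fun x => F x - top (m + 1) F x) := by
  intro x h
  obtain ⟨p, hp1, hp2⟩ := hF x h
  have hT := top_isDeg hF
  obtain ⟨q, hq1, hq2⟩ := hT x h
  refine ⟨p - q, ?_, ?_⟩
  · have e1 := top_indep hF hp1 hp2
    have e2 := top_indep hT hq1 hq2
    have e3 : top (m + 1) (top (m + 1) F) h = top (m + 1) F h := by
      obtain ⟨r, hr1, hr2⟩ := hT 0 h
      have hX : ((C (top (m + 1) F h) * X ^ (m + 1) : ℝ[X])).natDegree ≤ m + 1 :=
        natDegree_C_mul_X_pow_le _ _
      have hXe : ∀ t : ℚ, top (m + 1) F ((0 : E) + (t : ℝ) • h) =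
          ((C (top (m + 1) F h) * X ^ (m + 1) : ℝ[X])).eval (t : ℝ) := by
        intro t
        rw [zero_add, top_hom hF, eval_mul, eval_C, eval_pow, eval_X, mul_comm]
      rw [top_eq hX hXe, coeff_C_mul, coeff_X_pow, if_pos rfl, mul_one]
    have hd : (p - q).natDegree ≤ m + 1 := (natDegree_sub_le _ _).trans (max_le hp1 hq1)
    have hc : (p - q).coeff (m + 1) = 0 := by
      rw [coeff_sub, e1, e2, e3, sub_self]
    rw [natDegree_le_iff_coeff_eq_zero]
    intro N hN
    rcases Nat.lt_or_ge N (m + 2) with h4 | h4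
    · have : N = m + 1 := by omega
      rw [this]; exact hc
    · exact coeff_eq_zero_of_natDegree_lt (by omega)
  · intro t
    rw [eval_sub, ← hp2 t, ← hq2 t]

/-- locally bounded -/
def LB (F : E → ℝ) : Prop := ∀ x : E, ∃ δ > 0, ∃ K : ℝ, ∀ h : E, ‖h‖ < δ → |F (x + h)| ≤ K

lemma cont_of_LB {m : ℕ} {F : E → ℝ} (hF : IsDeg m F) (hb : LB F) : Continuous F := by
  rw [continuous_iff_continuousAt]
  intro x
  rw [Metric.continuousAt_iff]
  intro ε hε
  obtain ⟨δ, hδ, K, hK⟩ := hb x
  have hK0 : 0 ≤ K := (abs_nonneg _).trans (hK 0 (by simpa using hδ))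
  set S : ℝ := ∑ j ∈ Finset.range (m + 1), ∑ i ∈ Finset.range (m + 1), |lam m j i| * K with hS
  have hS0 : 0 ≤ S := by positivity
  obtain ⟨R, hR⟩ := exists_nat_gt (S / ε)
  have hR' : (0 : ℝ) < (R : ℝ) + 1 := by positivity
  refine ⟨δ / ((m + 1) * ((R : ℝ) + 1)), by positivity, ?_⟩
  intro y hy
  set h' := y - x with hh'
  have hy' : y = x + h' := by rw [hh']; abel
  rw [dist_eq_norm, ← hh'] at hy
  set h := ((R : ℝ) + 1) • h' with hh
  have hhn : ‖h‖ < δ / (m + 1) := by
    rw [hh, norm_smul, Real.norm_of_nonneg hR'.le]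
    have h6 : ((R : ℝ) + 1) * ‖h'‖ < ((R : ℝ) + 1) * (δ / ((m + 1) * ((R : ℝ) + 1))) :=
      mul_lt_mul_of_pos_left hy hR'
    have h7 : ((R : ℝ) + 1) * (δ / ((m + 1) * ((R : ℝ) + 1))) = δ / (m + 1) := by
      field_simp
    rwa [h7] at h6
  obtain ⟨p, hp1, hp2⟩ := hF x h
  have hcb : ∀ j, |p.coeff j| ≤ ∑ i ∈ Finset.range (m + 1), |lam m j i| * K := by
    intro j
    rw [coeff_formula hp1]
    refine (Finset.abs_sum_le_sum_abs _ _).trans ?_
    apply Finset.sum_le_sum
    intro i hi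
    rw [abs_mul]
    apply mul_le_mul_of_nonneg_left _ (abs_nonneg _)
    have h8 := hp2 (i : ℚ)
    push_cast at h8
    rw [← h8]
    apply hK
    rw [norm_smul, Real.norm_of_nonneg (by positivity)]
    have hi' : (i : ℝ) < m + 1 := by exact_mod_cast Finset.mem_range.1 hi
    have hm1 : (0 : ℝ) < (m : ℝ) + 1 := by positivity
    calc (i : ℝ) * ‖h‖ ≤ (m + 1) * ‖h‖ := mul_le_mul_of_nonneg_right hi'.le (norm_nonneg _)
      _ < (m + 1) * (δ / (m + 1)) := mul_lt_mul_of_pos_left hhn hm1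
      _ = δ := by field_simp
  have e1 : F y = p.eval (1 / ((R : ℝ) + 1)) := by
    have := hp2 (1 / ((R : ℚ) + 1))
    push_cast at this
    rw [← this, hy', hh, smul_smul, one_div_mul_cancel hR'.ne', one_smul]
  have e2 : F x = p.eval 0 := by
    have := hp2 0
    simpa using this
  have e3 : F y - F x = ∑ j ∈ Finset.range m, p.coeff (j + 1) * (1 / ((R : ℝ) + 1)) ^ (j + 1) := by
    rw [e1, e2, eval_range hp1, eval_range hp1, Finset.sum_range_succ', Finset.sum_range_succ']
    simp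
  rw [dist_eq_norm, Real.norm_eq_abs, e3]
  have hu1 : 1 / ((R : ℝ) + 1) ≤ 1 := by
    rw [div_le_one hR']; linarith [Nat.cast_nonneg (α := ℝ) R]
  have hu0 : 0 ≤ 1 / ((R : ℝ) + 1) := by positivity
  have e4 : |∑ j ∈ Finset.range m, p.coeff (j + 1) * (1 / ((R : ℝ) + 1)) ^ (j + 1)| ≤
      S * (1 / ((R : ℝ) + 1)) := by
    refine (Finset.abs_sum_le_sum_abs _ _).trans ?_
    rw [hS, Finset.sum_mul, Finset.sum_range_succ']
    have hlast : 0 ≤ (∑ i ∈ Finset.range (m + 1), |lam m 0 i| * K) * (1 / ((R : ℝ) + 1)) := by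
      positivity
    refine le_trans (Finset.sum_le_sum ?_) (le_add_of_nonneg_right hlast)
    intro j _
    rw [abs_mul, abs_of_nonneg (pow_nonneg hu0 _)]
    apply mul_le_mul (hcb _) _ (pow_nonneg hu0 _) (by positivity)
    calc (1 / ((R : ℝ) + 1)) ^ (j + 1) = (1 / ((R : ℝ) + 1)) ^ j * (1 / ((R : ℝ) + 1)) := pow_succ _ _
      _ ≤ 1 * (1 / ((R : ℝ) + 1)) := by
        apply mul_le_mul_of_nonneg_right (pow_le_one₀ hu0 hu1) hu0
      _ = _ := one_mul _
  refine lt_of_le_of_lt e4 ?_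
  rw [mul_one_div, div_lt_iff₀ hR']
  rw [div_lt_iff₀ hε] at hR
  nlinarith

/-- The negation of Q2 for `F`. -/
def N (F : E → ℝ) : Prop :=
  ∀ x : ℕ → E, Tendsto x atTop (𝓝 0) → ∃ (y : E) (K : ℝ), ∀ n, |F (x n + y)| ≤ K

lemma top_bdd {m : ℕ} {F : E → ℝ} (hF : IsDeg m F) (hN : N F) :
    ∃ δ > 0, ∃ K : ℝ, ∀ h : E, ‖h‖ < δ → |top m F h| ≤ K := by
  by_contra hc
  push Not at hc
  -- null sequence along which `top` blows up
  have h1 : ∀ n : ℕ, ∃ y : E, ‖y‖ < 1 / ((n : ℝ) + 1) ∧ (n : ℝ) < |top m F y| := by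
    intro n
    exact hc _ (by positivity) n
  choose y hy1 hy2 using h1
  let x : ℕ → E := fun k => ((k % (m + 1) : ℕ) : ℝ) • y (k / (m + 1))
  have hx : Tendsto x atTop (𝓝 0) := by
    rw [tendsto_zero_iff_norm_tendsto_zero]
    have hlim : Tendsto (fun k : ℕ => ((m : ℝ) + 1) * (1 / (((k / (m + 1) : ℕ) : ℝ) + 1))) atTop (𝓝 0) := by
      have h2 : Tendsto (fun k : ℕ => k / (m + 1)) atTop atTop :=
        Nat.tendsto_div_const_atTop (by omega)
      have h3 := (tendsto_one_div_add_atTop_nhds_zero_nat (𝕜 := ℝ)).comp h2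
      have h4 := h3.const_mul ((m : ℝ) + 1)
      rw [mul_zero] at h4
      exact h4
    refine squeeze_zero (fun _ => norm_nonneg _) ?_ hlim
    intro k
    simp only [x]
    rw [norm_smul, Real.norm_of_nonneg (by positivity)]
    apply mul_le_mul _ (hy1 _).le (norm_nonneg _) (by positivity)
    have : k % (m + 1) < m + 1 := Nat.mod_lt _ (by omega)
    exact_mod_cast this.le
  obtain ⟨z, K, hK⟩ := hN x hx
  -- bound top (y n)
  have h5 : ∀ n, |top m F (y n)| ≤ ∑ i ∈ Finset.range (m + 1), |lam m m i| * K := by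
    intro n
    obtain ⟨p, hp1, hp2⟩ := hF z (y n)
    rw [← top_indep hF hp1 hp2, coeff_formula hp1]
    refine (Finset.abs_sum_le_sum_abs _ _).trans ?_
    apply Finset.sum_le_sum
    intro i hi
    rw [abs_mul]
    apply mul_le_mul_of_nonneg_left _ (abs_nonneg _)
    have h8 := hp2 (i : ℚ)
    push_cast at h8
    rw [← h8]
    have hi' : i < m + 1 := Finset.mem_range.1 hi
    have h9 := hK ((m + 1) * n + i)
    have h10 : ((m + 1) * n + i) % (m + 1) = i := by
      rw [Nat.mul_add_mod, Nat.mod_eq_of_lt hi']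
    have h11 : ((m + 1) * n + i) / (m + 1) = n := by
      rw [Nat.mul_add_div (by omega), Nat.div_eq_of_lt hi', add_zero]
    simp only [x] at h9
    rw [h10, h11] at h9
    rwa [add_comm]
  obtain ⟨n, hn⟩ := exists_nat_gt (∑ i ∈ Finset.range (m + 1), |lam m m i| * K)
  exact absurd (lt_of_lt_of_le (lt_trans hn (hy2 n)) (h5 n)) (lt_irrefl _)

lemma top_LB {m : ℕ} {F : E → ℝ} (hF : IsDeg m F) (hN : N F) : LB (top m F) := by
  obtain ⟨δ, hδ, K, hK⟩ := top_bdd hF hN
  intro x
  obtain ⟨R, hR⟩ := exists_nat_gt ((‖x‖ + 1) / δ)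
  have hR0 : (0 : ℝ) < R := lt_of_le_of_lt (by positivity) hR
  refine ⟨1, one_pos, (R : ℝ) ^ m * K, ?_⟩
  intro h hh
  have e1 : x + h = ((R : ℚ) : ℝ) • ((R : ℝ)⁻¹ • (x + h)) := by
    push_cast
    rw [smul_smul, mul_inv_cancel₀ hR0.ne', one_smul]
  rw [e1, top_hom hF, abs_mul]
  push_cast
  rw [abs_of_nonneg (pow_nonneg hR0.le m)]
  apply mul_le_mul_of_nonneg_left _ (pow_nonneg hR0.le m)
  apply hK
  rw [norm_smul, norm_inv, Real.norm_of_nonneg hR0.le, inv_mul_lt_iff₀ hR0]
  rw [div_lt_iff₀ hδ] at hR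
  exact lt_of_le_of_lt (norm_add_le _ _) (by linarith)

lemma cont_of_N (m : ℕ) : ∀ F : E → ℝ, IsDeg m F → N F → Continuous F := by
  induction m with
  | zero =>
    intro F hF _
    have : F = fun _ => F 0 := by
      funext y
      obtain ⟨p, hp1, hp2⟩ := hF 0 y
      have h1 := hp2 1
      have h0 := hp2 0
      have hpc : p = C (p.coeff 0) := eq_C_of_natDegree_le_zero hp1
      rw [hpc] at h0 h1
      simp at h0 h1
      rw [h1, h0]
    rw [this]
    exact continuous_const
  | succ m ih =>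
    intro F hF hN
    have hLB := top_LB hF hN
    have hTd := top_isDeg hF
    have hTc := cont_of_LB hTd hLB
    have hG : Continuous (fun x => F x - top (m + 1) F x) := by
      apply ih _ (sub_top hF)
      intro x hx
      obtain ⟨y, K, hK⟩ := hN x hx
      obtain ⟨K', hK'⟩ : ∃ K', ∀ n, |top (m + 1) F (x n + y)| ≤ K' := by
        have h1 : Tendsto (fun n => |top (m + 1) F (x n + y)|) atTop (𝓝 |top (m + 1) F (0 + y)|) :=
          ((hTc.tendsto _).comp (hx.add_const y)).abs
        obtain ⟨K', hK'⟩ := h1.bddAbove_range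
        exact ⟨K', fun n => hK' ⟨n, rfl⟩⟩
      refine ⟨y, K + K', ?_⟩
      intro n
      refine (abs_sub _ _).trans ?_
      exact add_le_add (hK n) (hK' n)
    have : F = fun x => (F x - top (m + 1) F x) + top (m + 1) F x := by
      funext x; ring
    rw [this]
    exact hG.add hTc

theorem q2 (m : ℕ) (F : E → ℝ) (hF : FunctionalOfDegree m F) (hc : ¬ Continuous F) :
    ∃ x : ℕ → E, Tendsto x atTop (𝓝 0) ∧ ∀ (y : E) (K : ℝ), ∃ᶠ n in atTop, K < |F (x n + y)| := by
  have hN : ¬ N F := fun h => hc (cont_of_N m F (isDeg_of hF) h)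
  unfold N at hN
  push Not at hN
  obtain ⟨x, hx, hxy⟩ := hN
  refine ⟨x, hx, ?_⟩
  intro y K
  rw [Filter.frequently_atTop]
  intro a
  obtain ⟨n, hn⟩ := hxy y (|K| + ∑ i ∈ Finset.range a, |F (x i + y)|)
  have hs : 0 ≤ ∑ i ∈ Finset.range a, |F (x i + y)| := Finset.sum_nonneg fun _ _ => abs_nonneg _
  refine ⟨n, ?_, ?_⟩
  · by_contra hlt
    push Not at hlt
    have : |F (x n + y)| ≤ ∑ i ∈ Finset.range a, |F (x i + y)| :=
      Finset.single_le_sum (f := fun i => |F (x i + y)|) (fun _ _ => abs_nonneg _)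
        (Finset.mem_range.2 hlt)
    have := abs_nonneg K
    linarith
  · have := le_abs_self K
    linarith

end Q2

section Q1

open Cardinal

/-- labels -/
abbrev Lab : Type := Option (ℕ → ℝ)

abbrev Ar : Lab → Type
  | none => Empty
  | some _ => ℕ

/-- countably branching well-founded trees with labels real sequences -/
abbrev T : Type := WType Ar

noncomputable def node (h : ℕ → ℝ) (c : ℕ → T) : T := WType.mk (some h) c

def child (s t : T) : Prop := ∃ (h : ℕ → ℝ) (c : ℕ → T), t = node h c ∧ ∃ n, c n = s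

lemma child_wf : WellFounded child := by
  constructor
  intro t
  induction t with
  | mk a f ih =>
    cases a with
    | none =>
      constructor
      rintro s ⟨h, c, hc, -⟩
      simp only [node, WType.mk.injEq] at hc
      exact absurd hc.1 (by simp)
    | some h0 =>
      constructor
      rintro s ⟨h, c, hc, n, hn⟩
      simp only [node, WType.mk.injEq, Option.some.injEq] at hc
      obtain ⟨h1, h2⟩ := hc
      subst h1
      have h3 : f = c := eq_of_heq h2
      rw [← hn, ← h3]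
      exact ih n

open Classical in
noncomputable def lab : T → T → ℝ
  | WType.mk none _, _ => 0
  | WType.mk (some h) c, s => if hs : ∃ n : ℕ, c n = s then h hs.choose else 0

lemma lab_node (g : T → ℝ) (c : ℕ → T) (n : ℕ) : lab (node (fun k => g (c k)) c) (c n) = g (c n) := by
  have hs : ∃ k : ℕ, c k = c n := ⟨n, rfl⟩
  simp only [lab, node]
  rw [dif_pos hs, hs.choose_spec]

lemma lab_of_not_child {s t : T} (h : ¬ child s t) : lab t s = 0 := by
  cases t with
  | mk a f =>
    cases a with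
    | none => rfl
    | some h0 =>
      simp only [lab]
      rw [dif_neg]
      rintro ⟨n, hn⟩
      exact h ⟨h0, f, rfl, n, hn⟩

noncomputable def bm (s t : T) : ℝ := lab t s + lab s t

lemma bm_symm (s t : T) : bm s t = bm t s := by unfold bm; ring

lemma bm_ext (g : T → ℝ) (c : ℕ → T) : ∃ t : T, ∀ n, bm (c n) t = g (c n) := by
  refine ⟨node (fun k => g (c k)) c, ?_⟩
  intro n
  have h1 : child (c n) (node (fun k => g (c k)) c) := ⟨_, c, rfl, n, rfl⟩
  have h2 := child_wf.asymmetric _ _ h1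
  unfold bm
  rw [lab_node, lab_of_not_child h2, add_zero]

lemma mk_T_le : #T ≤ 𝔠 := by
  apply WType.cardinalMk_le_of_le
  have h1 : (Cardinal.sum fun a : Lab => (𝔠 : Cardinal.{0}) ^ #(Ar a)) ≤
      Cardinal.sum fun _ : Lab => (𝔠 : Cardinal.{0}) := by
    apply Cardinal.sum_le_sum
    intro a
    cases a with
    | none => simpa [Ar] using (Cardinal.nat_lt_continuum 1).le
    | some h => simp [Ar]
  refine h1.trans ?_
  rw [Cardinal.sum_const]
  simp only [Cardinal.lift_id]
  have h2 : #Lab ≤ 𝔠 := by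
    rw [Cardinal.mk_option]
    have h3 : #(ℕ → ℝ) = 𝔠 := by simp [Cardinal.mk_real]
    rw [h3]
    exact (Cardinal.add_one_eq Cardinal.aleph0_le_continuum).le
  calc #Lab * 𝔠 ≤ 𝔠 * 𝔠 := mul_le_mul_left h2 _
    _ = 𝔠 := by simp

lemma le_mk_T : 𝔠 ≤ #T := by
  rw [← Cardinal.mk_real]
  let f : ℝ → T := fun r => node (fun _ => r) (fun _ => WType.mk none Empty.elim)
  apply Cardinal.mk_le_of_injective (f := f)
  intro a b hab
  simp only [f, node, WType.mk.injEq, Option.some.injEq] at hab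
  exact congrFun hab.1 0

lemma mk_T : #T = 𝔠 := le_antisymm mk_T_le le_mk_T

open BoundedContinuousFunction

/-- the Banach space `ℓ^∞` -/
abbrev Linf : Type := BoundedContinuousFunction ℕ ℝ

noncomputable def geo (r : Set.Ioo (0:ℝ) 1) : Linf :=
  ofNormedAddCommGroupDiscrete (fun n : ℕ => (r : ℝ) ^ n) 1 (by
    intro n
    rw [norm_pow, Real.norm_of_nonneg r.2.1.le]
    exact pow_le_one₀ r.2.1.le r.2.2.le)

lemma geo_li : LinearIndependent ℝ geo := by
  let L : Linf →ₗ[ℝ] (ℕ → ℝ) :=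
    { toFun := fun f => (f : ℕ → ℝ)
      map_add' := fun _ _ => rfl
      map_smul' := fun _ _ => rfl }
  apply LinearIndependent.of_comp L
  have h1 := linearIndependent_monoidHom (Multiplicative ℕ) ℝ
  have h2 : Function.Injective (fun r : Set.Ioo (0:ℝ) 1 => powersHom ℝ (r : ℝ)) := by
    intro a b hab
    have := (powersHom ℝ).injective hab
    exact Subtype.ext this
  exact h1.comp _ h2

lemma exists_basis : Nonempty (Module.Basis T ℝ Linf) := by
  let b := Module.Basis.ofVectorSpace ℝ Linf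
  have h1 : #(Module.Basis.ofVectorSpaceIndex ℝ Linf) ≤ 𝔠 := by
    have h2 : #(Module.Basis.ofVectorSpaceIndex ℝ Linf) ≤ #Linf :=
      Cardinal.mk_le_of_injective b.injective
    have h3 : #Linf ≤ #(ℕ → ℝ) :=
      Cardinal.mk_le_of_injective (f := fun f : Linf => (f : ℕ → ℝ)) DFunLike.coe_injective
    have h4 : #(ℕ → ℝ) = 𝔠 := by simp [Cardinal.mk_real]
    rw [← h4]
    exact h2.trans h3
  have h5 : 𝔠 ≤ #(Module.Basis.ofVectorSpaceIndex ℝ Linf) := by
    have h6 := geo_li.cardinal_le_rank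
    rw [Cardinal.mk_Ioo_real (by norm_num : (0:ℝ) < 1)] at h6
    rwa [b.mk_eq_rank'']
  have h7 : #(Module.Basis.ofVectorSpaceIndex ℝ Linf) = #T := by
    rw [mk_T]; exact le_antisymm h1 h5
  obtain ⟨e⟩ := Cardinal.eq.1 h7
  exact ⟨b.reindex e⟩

noncomputable def bas : Module.Basis T ℝ Linf := exists_basis.some

noncomputable def B : Linf →ₗ[ℝ] Linf →ₗ[ℝ] ℝ :=
  bas.constr ℝ (fun s => bas.constr ℝ (fun t => bm s t))

lemma B_bas (s t : T) : B (bas s) (bas t) = bm s t := by
  unfold B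
  rw [Module.Basis.constr_basis, Module.Basis.constr_basis]

lemma B_symm (x y : Linf) : B x y = B y x := by
  have : B = B.flip := by
    apply bas.ext
    intro s
    apply bas.ext
    intro t
    rw [LinearMap.flip_apply, B_bas, B_bas, bm_symm]
  conv_lhs => rw [this, LinearMap.flip_apply]

noncomputable def Q (x : Linf) : ℝ := B x x

lemma Q_add (x y : Linf) : Q (x + y) = Q x + 2 * B x y + Q y := by
  unfold Q
  simp only [map_add, LinearMap.add_apply]
  rw [B_symm y x]
  ring

/-- extension property -/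
lemma B_ext (l : Linf →ₗ[ℝ] ℝ) (x : ℕ → Linf) : ∃ y : Linf, ∀ n, B (x n) y = l (x n) := by
  have hC : (⋃ n, ((bas.repr (x n)).support : Set T)).Countable :=
    Set.countable_iUnion fun n => (Finset.countable_toSet _)
  have : Nonempty T := ⟨node (fun _ => 0) (fun _ => WType.mk none Empty.elim)⟩
  obtain ⟨c, hc⟩ := Set.countable_iff_exists_subset_range.1 hC
  obtain ⟨t, ht⟩ := bm_ext (fun s => l (bas s)) c
  refine ⟨bas t, ?_⟩
  intro n
  have h1 : B (x n) (bas t) = B.flip (bas t) (x n) := rfl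
  rw [h1]
  conv_lhs => rw [← bas.linearCombination_repr (x n)]
  conv_rhs => rw [← bas.linearCombination_repr (x n)]
  rw [Finsupp.apply_linearCombination, Finsupp.apply_linearCombination,
    Finsupp.linearCombination_apply, Finsupp.linearCombination_apply]
  apply Finsupp.sum_congr
  intro s hs
  simp only [Function.comp]
  have hs' : s ∈ Set.range c := hc (Set.mem_iUnion.2 ⟨n, hs⟩)
  obtain ⟨k, rfl⟩ := hs'
  rw [LinearMap.flip_apply, B_bas, ht k]

lemma Q_not_cont : ¬ Continuous Q := by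
  intro hQ
  have : Infinite T := by
    rw [Cardinal.infinite_iff, mk_T]
    exact Cardinal.aleph0_le_continuum
  let c : ℕ → T := Infinite.natEmbedding T
  have hcinj : Function.Injective c := (Infinite.natEmbedding T).injective
  -- unnormalised
  let g : T → ℝ := Function.extend c (fun n => ((n : ℝ) + 1) ^ 2 * ‖bas (c n)‖) 0
  obtain ⟨t, ht⟩ := bm_ext g c
  have hg : ∀ n, g (c n) = ((n : ℝ) + 1) ^ 2 * ‖bas (c n)‖ := fun n => hcinj.extend_apply _ _ n
  let y : ℕ → Linf := fun n => (1 / (((n : ℝ) + 1) * ‖bas (c n)‖)) • bas (c n)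
  have hne : ∀ n, ‖bas (c n)‖ ≠ 0 := fun n => norm_ne_zero_iff.2 (bas.ne_zero _)
  have hy0 : Tendsto y atTop (𝓝 0) := by
    rw [tendsto_zero_iff_norm_tendsto_zero]
    have : (fun n => ‖y n‖) = fun n : ℕ => 1 / ((n : ℝ) + 1) := by
      funext n
      have hp := norm_nonneg (bas (c n))
      have := hne n
      simp only [y]
      rw [norm_smul, Real.norm_of_nonneg (by positivity)]
      field_simp
    rw [this]
    exact tendsto_one_div_add_atTop_nhds_zero_nat
  have hB : ∀ n, B (y n) (bas t) = (n : ℝ) + 1 := by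
    intro n
    simp only [y]
    rw [map_smul, LinearMap.smul_apply, B_bas, ht, hg, smul_eq_mul]
    have := hne n
    field_simp
  have h1 : Tendsto (fun n => (Q (y n + bas t) - Q (y n) - Q (bas t)) / 2) atTop
      (𝓝 ((Q (0 + bas t) - Q 0 - Q (bas t)) / 2)) := by
    apply Tendsto.div_const
    apply Tendsto.sub_const
    apply Tendsto.sub
    · exact (hQ.tendsto _).comp (hy0.add_const _)
    · exact (hQ.tendsto _).comp hy0
  have h2 : ∀ n, (Q (y n + bas t) - Q (y n) - Q (bas t)) / 2 = (n : ℝ) + 1 := by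
    intro n
    rw [Q_add, hB]; ring
  simp only [h2] at h1
  have h3 : Tendsto (fun n : ℕ => (n : ℝ) + 1) atTop atTop :=
    tendsto_atTop_add_const_right _ _ tendsto_natCast_atTop_atTop
  exact not_tendsto_nhds_of_tendsto_atTop h3 _ h1

/-- quadratic forms are continuous on finite-dimensional subspaces. -/
lemma Q_cont_fd {E : Type} [NormedAddCommGroup E] [NormedSpace ℝ E] (B : E →ₗ[ℝ] E →ₗ[ℝ] ℝ)
    (V : Submodule ℝ E) [FiniteDimensional ℝ V] : Continuous (fun v : V => B (v : E) (v : E)) := by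
  let bV := Module.finBasis ℝ V
  have h : ∀ v : V, B (v : E) (v : E) = ∑ i, bV.coord i v * (B (bV i : E)).domRestrict V v := by
    intro v
    have hv : (v : E) = ∑ i, (bV.coord i v) • (bV i : E) := by
      have h1 := bV.sum_repr v
      have h2 := congrArg (fun w : V => (w : E)) h1
      simp only [AddSubmonoidClass.coe_finsetSum, Submodule.coe_smul] at h2
      rw [← h2]
      simp
    have h3 : B (v : E) (v : E) = B (∑ i, (bV.coord i v) • (bV i : E)) (v : E) := by
      rw [← hv]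
    rw [h3, map_sum, LinearMap.sum_apply]
    apply Finset.sum_congr rfl
    intro i _
    rw [map_smul, LinearMap.smul_apply, smul_eq_mul]
    rfl
  have h' : (fun v : V => B (v : E) (v : E)) =
      fun v : V => ∑ i, bV.coord i v * (B (bV i : E)).domRestrict V v := funext h
  rw [h']
  apply continuous_finsetSum
  intro i _
  apply Continuous.mul
  · exact LinearMap.continuous_of_finiteDimensional (𝕜 := ℝ) (E := V) (F' := ℝ) _
  · exact LinearMap.continuous_of_finiteDimensional (𝕜 := ℝ) (E := V) (F' := ℝ) _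

theorem q1 (x : ℕ → Linf) (hx : Tendsto x atTop (𝓝 0)) :
    ∃ y : Linf, ¬ Tendsto (fun n => |Q (x n + y)|) atTop atTop := by
  obtain ⟨b, hb1, hb2, hb3⟩ := exists_linearIndependent ℝ (Set.range x)
  by_cases hfin : b.Finite
  · -- finite-dimensional span
    let V : Submodule ℝ Linf := Submodule.span ℝ (Set.range x)
    have : FiniteDimensional ℝ V := by
      have : V = Submodule.span ℝ b := hb2.symm
      rw [this]
      exact FiniteDimensional.span_of_finite ℝ hfin
    refine ⟨0, ?_⟩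
    intro h
    let x' : ℕ → V := fun n => ⟨x n, Submodule.subset_span ⟨n, rfl⟩⟩
    have hx' : Tendsto x' atTop (𝓝 0) := by
      rw [tendsto_subtype_rng]
      exact hx
    have h1 : Tendsto (fun n => |Q (x' n)|) atTop (𝓝 |Q ((0 : V) : Linf)|) :=
      (((Q_cont_fd B V).tendsto 0).comp hx').abs
    have h2 : (fun n => |Q (x n + 0)|) = fun n => |Q (x' n)| := by
      funext n
      rw [add_zero]
    rw [h2] at h
    exact not_tendsto_nhds_of_tendsto_atTop h _ h1
  · -- a linear functional with prescribed values on `b`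
    have hbI : b.Infinite := hfin
    have hb4 : LinearIndepOn ℝ id b := hb3
    let bb := Module.Basis.extend hb4
    obtain ⟨l, hl⟩ : ∃ l : Linf →ₗ[ℝ] ℝ, ∀ v ∈ b, l v = -Q v / 2 := by
      refine ⟨bb.constr ℝ (fun i => -Q (i : Linf) / 2), ?_⟩
      intro v hv
      have hv' : v ∈ hb4.extend (Set.subset_univ b) := Module.Basis.subset_extend hb4 hv
      have h1 : bb ⟨v, hv'⟩ = v := Module.Basis.extend_apply_self hb4 ⟨v, hv'⟩
      conv_lhs => rw [← h1]
      rw [Module.Basis.constr_basis]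
    obtain ⟨y, hy⟩ := B_ext l x
    refine ⟨y, ?_⟩
    intro h
    rw [tendsto_atTop] at h
    have h1 := h (|Q y| + 1)
    rw [eventually_atTop] at h1
    obtain ⟨N, hN⟩ := h1
    -- some n ≥ N with x n ∈ b
    have h2 : ∃ n, N ≤ n ∧ x n ∈ b := by
      by_contra hc
      push Not at hc
      apply hbI
      apply Set.Finite.subset ((Finset.range N).finite_toSet.image x)
      intro v hv
      obtain ⟨n, rfl⟩ := hb1 hv
      refine ⟨n, ?_, rfl⟩
      rw [Finset.mem_coe, Finset.mem_range]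
      by_contra h3
      exact hc n (by omega) hv
    obtain ⟨n, hn1, hn2⟩ := h2
    have h3 := hN n hn1
    rw [Q_add, hy, hl _ hn2] at h3
    have h4 : Q (x n) + 2 * (-Q (x n) / 2) + Q y = Q y := by ring
    rw [h4] at h3
    linarith

lemma Q_deg : FunctionalOfDegree 2 Q := by
  intro x h
  refine ⟨fun i => if i = 0 then Q x else if i = 1 then 2 * B x h else Q h, ?_⟩
  intro t
  have h1 : Q ((t : ℝ) • h) = (t : ℝ) ^ 2 * Q h := by
    unfold Q
    simp only [map_smul, LinearMap.smul_apply, smul_eq_mul]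
    ring
  rw [Q_add, h1, map_smul, smul_eq_mul, Finset.sum_range_succ, Finset.sum_range_succ,
    Finset.sum_range_succ, Finset.sum_range_zero]
  simp
  ring

end Q1

/-- **Q1 fails, Q2 holds.** -/
theorem result :
    (∃ F : BoundedContinuousFunction ℕ ℝ → ℝ, FunctionalOfDegree 2 F ∧ ¬ Continuous F ∧
      ∀ x : ℕ → BoundedContinuousFunction ℕ ℝ, Tendsto x atTop (𝓝 0) →
        ∃ y : BoundedContinuousFunction ℕ ℝ, ¬ Tendsto (fun n => |F (x n + y)|) atTop atTop) ∧
    (∀ (E : Type u) [NormedAddCommGroup E] [NormedSpace ℝ E] [CompleteSpace E] (m : ℕ)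
      (F : E → ℝ), FunctionalOfDegree m F → ¬ Continuous F →
        ∃ x : ℕ → E, Tendsto x atTop (𝓝 0) ∧
          ∀ (y : E) (K : ℝ), ∃ᶠ n in atTop, K < |F (x n + y)|) :=
  ⟨⟨Q, Q_deg, Q_not_cont, q1⟩, fun _ _ _ _ m F hF hc => q2 m F hF hc⟩

end Pool.Agent.Results.MP_f5651a_an.BlowUp
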